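import Pool.Agent.Q48.RD.MomS2

/-!
# Cunningham chains in short intervals: all moments

Let `l ≥ 3`. We count the `q` in `(x, x + T]` that start a Cunningham chain of length `l` (of the first or of the second kind), and the
`q` that start such a chain of almost primes.

Let `g ≥ 2` be a base and `K` a large number of digits. For every `i < K` let `A i` be an arbitrary set of digits, such that the number
`|A 0| ⋯ |A (K - 1)|` of the integers `t < g ^ K` whose `i`-th digit belongs to `A i` for all `i < K` is at least `exp (- δ K) g ^ K`.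
Let `N ≤ g ^ (E K)` be arbitrary. We consider the numbers `x = N + t` with these `t`: they form a set with only
`y ^ (1 - δ')` elements in an interval of length `y = g ^ K`, which may be an arbitrarily small power of `x`.

Let `k ≥ 1` and `T ≤ g ^ (E K)`. The conjecture of Hardy and Littlewood (Dickson) for the `k` systems shifted by `h_1, …, h_k`, averaged
over all `h_1, …, h_k ≤ T`, predicts that the mean value of the `k`-th power of this number has the order of magnitude of
`(T / K ^ l) ^ k` for `T ≥ K ^ l` and of `T / K ^ l` for `T ≤ K ^ l`. We prove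

(1) the upper bound of this order for the primes, for `x` in all these sets;

(2) the exact order of magnitude for the almost primes;

(3) that a positive proportion (for `T ≤ K ^ l`: the expected proportion `T / K ^ l`) of the intervals `(x, x + T]` contains the
expected number of such integers, with almost primes.
-/

set_option autoImplicit false

namespace Pool.Agent.Results.MP_c183ae_nt.ChainsInShortIntervals

open Filter Finset
open Pool.Agent.Q315.RD Pool.Agent.Q48.RD

/-- The `i`-th term of the chain that starts with `q` (`i = 0, 1, …`): `2 ^ i q + (2 ^ i - 1)` for the chains of the first kind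
(`q ↦ 2 q + 1`) and `2 ^ i q - (2 ^ i - 1)` for those of the second kind (`q ↦ 2 q - 1`). -/
def term (second : Bool) (i q : ℕ) : ℕ := if second then 2 ^ i * q - (2 ^ i - 1) else 2 ^ i * q + (2 ^ i - 1)

/-- The number of the `q` with `x < q ≤ x + T` that start a chain of primes of length `l`. -/
def primesIn (second : Bool) (l x T : ℕ) : ℕ := ((Ioc x (x + T)).filter fun q => ∀ i : Fin l, (term second i q).Prime).card

open Classical in
/-- The number of the `q` with `x < q ≤ x + T` for which the first `l` terms of the chain starting with `q` have at most `r` prime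
factors, all larger than `y ^ (1 / r)`. -/
noncomputable def almostPrimesIn (y r : ℕ) (second : Bool) (l x T : ℕ) : ℕ :=
  ((Ioc x (x + T)).filter fun q => ∀ i : Fin l, AlmostPrime y r (term second i q)).card

open Classical in
/-- The integers `t < g ^ K` whose `i`-th digit belongs to `A i` for all `i < K`. -/
noncomputable def digitSet (g K : ℕ) (A : ℕ → Finset ℕ) : Finset ℕ := (range (g ^ K)).filter (HasDigits g K A)

/-- The predicted order of magnitude of the mean value of the `k`-th power: `T / K ^ m` for `T ≤ K ^ m` and `(T / K ^ m) ^ k` for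
`T ≥ K ^ m`. -/
noncomputable def order (m k T K : ℕ) : ℝ := min 1 ((T : ℝ) / (K : ℝ) ^ m) * max 1 ((T : ℝ) / (K : ℝ) ^ m) ^ k

/-- **All moments of the number of Cunningham chains starting in short intervals.** -/
theorem result (l : ℕ) (_hl : 3 ≤ l) (second : Bool) (k : ℕ) (hk : 1 ≤ k) (E : ℕ) :
    ∃ δ : ℝ, 0 < δ ∧ ∃ r₀ : ℕ, 2 ≤ r₀ ∧ ∀ r : ℕ, r₀ ≤ r → ∀ g : ℕ, 2 ≤ g → ∃ κ C : ℝ, 0 < κ ∧ 0 < C ∧
      ∀ᶠ K : ℕ in atTop, ∀ N T : ℕ, N ≤ g ^ (E * K) → 1 ≤ T → T ≤ g ^ (E * K) →
        ∀ A : ℕ → Finset ℕ, (∀ i < K, A i ⊆ range g) → (g : ℝ) ^ K ≤ Real.exp (δ * K) * choices K A →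
        -- the primes
        ∑ t ∈ digitSet g K A, (primesIn second l (N + t) T : ℝ) ^ k ≤ C * order l k T K * choices K A ∧
        -- the almost primes
        ∑ t ∈ digitSet g K A, (almostPrimesIn (g ^ K) r second l (N + t) T : ℝ) ^ k ≤ C * order l k T K * choices K A ∧
        (g ≤ T →
          κ * order l k T K * choices K A ≤ ∑ t ∈ digitSet g K A, (almostPrimesIn (g ^ K) r second l (N + t) T : ℝ) ^ k ∧
          κ * min 1 ((T : ℝ) / (K : ℝ) ^ l) * choices K A ≤
            (((digitSet g K A).filter fun t => κ * max 1 ((T : ℝ) / (K : ℝ) ^ l) ≤ almostPrimesIn (g ^ K) r second l (N + t) T).card : ℝ)) := by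
  classical
  have hrec : ∀ i q : ℕ, 1 ≤ q → (term second i q : ℤ) = 2 ^ i * q + (if second then -(2 ^ i - 1) else 2 ^ i - 1) := by
    intro i q hq
    have h1 : 1 ≤ 2 ^ i := Nat.one_le_two_pow
    unfold term
    cases second
    · simp only [Bool.false_eq_true, ↓reduceIte]
      push_cast [Nat.cast_sub h1]
      ring
    · simp only [↓reduceIte]
      have h2 : 2 ^ i - 1 ≤ 2 ^ i * q := by nlinarith [Nat.sub_le (2 ^ i) 1]
      rw [Nat.cast_sub h2]
      push_cast [Nat.cast_sub h1]
      ring
  obtain ⟨δ, hδ, r0, hr0, H⟩ := sysMoments (fun i : Fin l => 2 ^ (i : ℕ)) (fun i : Fin l => if second then -(2 ^ (i : ℕ) - 1) else 2 ^ (i : ℕ) - 1)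
    (fun i => Nat.one_le_two_pow)
    (fun i => by
      cases second
      · simp only [Bool.false_eq_true, ↓reduceIte]
        exact ⟨1, -1, by push_cast; ring⟩
      · simp only [↓reduceIte]
        exact ⟨1, 1, by push_cast; ring⟩)
    (fun i j hij d h0 => by
      have hne : (2 : ℤ) ^ (i : ℕ) ≠ 2 ^ (j : ℕ) := fun h3 => hij (Fin.ext (Int.pow_right_injective (a := 2) (by norm_num) h3))
      have h1 : (1 : ℤ) ≤ 2 ^ (i : ℕ) := one_le_pow₀ (by norm_num)
      have h2 : (1 : ℤ) ≤ 2 ^ (j : ℕ) := one_le_pow₀ (by norm_num)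
      have h4 : ((2 : ℤ) ^ (i : ℕ) * 2 ^ (j : ℕ)) ∣ (2 ^ (i : ℕ) - 2 ^ (j : ℕ)) := by
        cases second
        · simp only [Bool.false_eq_true, ↓reduceIte] at h0
          push_cast at h0
          exact ⟨d, by linarith⟩
        · simp only [↓reduceIte] at h0
          push_cast at h0
          exact ⟨-d, by linarith⟩
      have h5 : (2 : ℤ) ^ (i : ℕ) - 2 ^ (j : ℕ) = 0 := by
        apply Int.eq_zero_of_abs_lt_dvd h4
        rw [abs_lt]
        constructor <;> nlinarith
      exact hne (by linarith))
    (fun p hp => ⟨if second then 1 else -1, fun i h => by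
      have h1 : (p : ℤ) ∣ 1 := by
        cases second
        · simp only [Bool.false_eq_true, ↓reduceIte] at h
          have e : ((2 ^ (i : ℕ) : ℕ) : ℤ) * -1 + (2 ^ (i : ℕ) - 1) = -1 := by push_cast; ring
          rw [e] at h
          exact (dvd_neg).1 h
        · simp only [↓reduceIte] at h
          have e : ((2 ^ (i : ℕ) : ℕ) : ℤ) * 1 + -(2 ^ (i : ℕ) - 1) = 1 := by push_cast; ring
          rw [e] at h
          exact h
      have h2 := Int.le_of_dvd one_pos h1
      have := hp.one_lt
      omega⟩)
    (fun i q => term second i q) (fun i q hq => by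
      rw [hrec i q hq]
      push_cast
      rfl) k hk E
  refine ⟨δ, hδ, r0, hr0, fun r hr g hg => ?_⟩
  obtain ⟨κ, C, hκ, hC, H⟩ := H r hr g hg
  refine ⟨κ, C, hκ, hC, ?_⟩
  filter_upwards [H] with K HK
  intro N T hN hT1 hT A hA1 hA2
  obtain ⟨h1, h2, h3⟩ := HK N T hN hT1 hT A ⟨hA1, hA2⟩
  have e1 : ∀ x, primesIn second l x T = numIn (fun q => ∀ i : Fin l, (term second i q).Prime) x T := by
    intro x
    unfold primesIn numIn
    congr!
  have e2 : ∀ x, almostPrimesIn (g ^ K) r second l x T = numIn (fun q => ∀ i : Fin l, AlmostPrime (g ^ K) r (term second i q)) x T := by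
    intro x
    unfold almostPrimesIn numIn
    congr!
  simp only [e1, e2]
  refine ⟨h1, h2, fun hgT => ⟨(h3 hgT).1, (h3 hgT).2.trans (le_of_eq ?_)⟩⟩
  unfold count digitSet
  rw [filter_filter]

end Pool.Agent.Results.MP_c183ae_nt.ChainsInShortIntervals
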