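import Mathlib
import Pool.Agent.Q51.EX.Bit
import Pool.Agent.Q51.EX.D45

/-!
# Consecutive primes among the terms of the two Cunningham orbits around `n`

For an integer `n` let `b_0, b_1, b_2, ...` be the numbers `n - 1, n + 1, 2 n - 1, 2 n + 1, 4 n - 1, 4 n + 1, ...`:
the orbit of `n - 1` under `x ↦ 2 x + 1` (even indices) and the orbit of `n + 1` under `x ↦ 2 x - 1`
(odd indices). For every finite set `E` of indices and every `ε > 0`, at EVERY large scale `x` there is a
set `B ⊆ E` with at least `17 |E| ^ (1/44) - 44` elements such that for ANY two elements `i < j` of `B` there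
are at least `x ^ (1 - ε)` integers `n ≤ x` for which `b_i(n)` and `b_j(n)` are consecutive primes of the
sequence: all the terms between them, of both kinds, are composite.

Proof: the theorem `DHL[45, 2]` of the starting files for linear forms (`Pool.Agent.Y826.ZG.dhl45L`),
congruences which make the other terms of both orbits composite, and Ramsey's theorem with the bound of
Erdős and Szekeres.
-/

set_option autoImplicit false

namespace Pool.Agent.Results.MP_c183ae_nt.ConsecutiveCliques

open Filter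

/-- the sequence `n - 1, n + 1, 2 n - 1, 2 n + 1, 4 n - 1, 4 n + 1, ...` -/
def b (n i : ℕ) : ℕ := 2 ^ (i / 2) * n + 2 * (i % 2) - 1

/-- For every finite set `E` of indices, `ε > 0` and large `x` there is `B ⊆ E` with at least
`17 |E| ^ (1/44) - 44` elements such that for all `i < j` in `B` there are at least `x ^ (1 - ε)` integers
`n ≤ x` for which `b_i(n)` and `b_j(n)` are primes and all `b_l(n)` with `i < l < j` are composite. -/
theorem result (E : Finset ℕ) (ε : ℝ) (hε : 0 < ε) :
    ∀ᶠ x : ℝ in atTop, ∃ B ⊆ E, 17 * (E.card : ℝ) ^ (1 / 44 : ℝ) - 44 ≤ (B.card : ℝ) ∧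
      ∀ i ∈ B, ∀ j ∈ B, i < j → x ^ (1 - ε) ≤ (Set.ncard {n : ℕ | (n : ℝ) ≤ x ∧
        (b n i).Prime ∧ (b n j).Prime ∧ ∀ l, i < l → l < j → ¬ (b n l).Prime} : ℝ) := by
  obtain ⟨ε', hε', h1⟩ := Pool.Agent.Q51.EX.shift_scale ε hε
  have hT : Tendsto (fun x : ℝ => x / 2) atTop atTop :=
    tendsto_id.atTop_div_const (by positivity)
  have h2 := Pool.Agent.Q51.EX.cliques0 Pool.Agent.Q51.EX.dhls45 Pool.Agent.Q51.EX.seq_bit E ε' hε'
  filter_upwards [h1, hT.eventually h2] with x hx hx2
  obtain ⟨B, hB, hBc, h3⟩ := hx2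
  refine ⟨B, hB, hBc, fun i hi j hj hij => ?_⟩
  refine hx _ _ ?_ (h3 i hi j hj hij)
  rintro n ⟨h4, h5, h6⟩
  simp only [Pool.Agent.Q51.EX.bit_val] at h4 h5 h6
  exact ⟨h4, h5, h6⟩

end Pool.Agent.Results.MP_c183ae_nt.ConsecutiveCliques
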