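import Mathlib
import Pool.Agent.Q51.EX.BitCol

/-!
# Both kinds of Cunningham orbits at once in an arbitrary finite partition of the primes

Colour the primes with finitely many colours, in an arbitrary way. There are a colour and sets `I`, `J` of
times, ONE OF WHICH has at least `(log X) ^ (1-ε)` elements below `X` for arbitrarily large `X`, such that
for every `M` there are infinitely many `n` for which the primes of this colour among the terms
`2 ^ t n - 1`, `t ≤ M`, of the orbit of the first kind of `n - 1` and among the terms `2 ^ t n + 1`, `t ≤ M`,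
of the orbit of the second kind of `n + 1` are exactly those with `t ∈ I`, and with `t ∈ J`. So one and the
same infinite exact pattern is realised in both orbits simultaneously.

The infinite exact pattern theorem of the starting files (`Pool.Agent.H361R2.Inf`) is divided into the
colours by a limit along an ultrafilter (`Pool.Agent.Q51.CP.Col.quant`).
-/

set_option autoImplicit false

namespace Pool.Agent.Results.MP_c183ae_nt.OneColourBothKinds

open Filter

/-- Let `P 0, …, P (k-1)` be sets of primes which contain all primes, and `ε > 0`. There are a class `P c`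
and sets `I`, `J` of times, one of which has at least `(log X) ^ (1-ε)` elements below `X` for arbitrarily
large `X`, such that for every `M` there are infinitely many `n` such that for all `t ≤ M`: `2 ^ t n - 1` is
in `P c` if and only if `t ∈ I`, and `2 ^ t n + 1` is in `P c` if and only if `t ∈ J`. -/
theorem result (k : ℕ) (P : Fin k → Set ℕ) (hP1 : ∀ c, ∀ p ∈ P c, p.Prime)
    (hP2 : ∀ p : ℕ, p.Prime → ∃ c, p ∈ P c) (ε : ℝ) (hε : 0 < ε) :
    ∃ c : Fin k, ∃ I J : Set ℕ,
      ((∃ᶠ X : ℕ in atTop, (Real.log X) ^ (1 - ε) ≤ ((I ∩ Set.Iio X).ncard : ℝ)) ∨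
        (∃ᶠ X : ℕ in atTop, (Real.log X) ^ (1 - ε) ≤ ((J ∩ Set.Iio X).ncard : ℝ))) ∧
      ∀ M : ℕ, {n : ℕ | ∀ t ≤ M,
        (2 ^ t * n - 1 ∈ P c ↔ t ∈ I) ∧ (2 ^ t * n + 1 ∈ P c ↔ t ∈ J)}.Infinite :=
  Pool.Agent.Q51.EX.bit_col P hP1 hP2 ε hε

end Pool.Agent.Results.MP_c183ae_nt.OneColourBothKinds
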