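import Mathlib
import Pool.Agent.Q51.EX.Bit
import Pool.Agent.Q51.EX.Cpx

/-!
# The number of the joint exact patterns of primes in the two Cunningham orbits around `n`

For an integer `n` let `b_0, b_1, b_2, ...` be the numbers `n - 1, n + 1, 2 n - 1, 2 n + 1, 4 n - 1, 4 n + 1, ...`:
the orbit of `n - 1` under `x ↦ 2 x + 1` (even indices) and the orbit of `n + 1` under `x ↦ 2 x - 1`
(odd indices). Every set of `L` indices has at least `exp (c (log L) ^ 2) = L ^ (c log L)` subsets `P`
which are exact patterns of primes of both orbits, for every `c < 1/16` and all large `L`: for every `W`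
and `η > 0` there are arbitrarily large `x` with at least `x ^ (1 - η)` integers `n ≤ x` such that for all
`i ≤ W` the number `b_i(n)` is prime if and only if `i ∈ P`.

In particular (sets of even indices) every set of `L` times contains so many exact patterns of the orbits
of the first kind for which the orbit of the second kind around the same `n` has only composite terms up
to any time, and conversely.

Proof: the theorem of Maynard and Tao for linear forms with the explicit number of forms
`exp (4 m + 0.58)` (`Pool.Agent.H358R5.forms_many`, starting files), congruences which make all the other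
terms of both orbits composite, and a double counting.
-/

set_option autoImplicit false

namespace Pool.Agent.Results.MP_c183ae_nt.PatternComplexity

open Filter

/-- the sequence `n - 1, n + 1, 2 n - 1, 2 n + 1, 4 n - 1, 4 n + 1, ...` -/
def b (n i : ℕ) : ℕ := 2 ^ (i / 2) * n + 2 * (i % 2) - 1

/-- `P` is the exact set of the indices of primes, up to every index `W`, for many `n` -/
def IsExactPattern (P : Finset ℕ) : Prop :=
  ∀ W : ℕ, ∀ η : ℝ, 0 < η → ∃ᶠ x : ℝ in atTop, x ^ (1 - η) ≤ (Set.ncard {n : ℕ | (n : ℝ) ≤ x ∧
    ∀ i ≤ W, ((b n i).Prime ↔ i ∈ P)} : ℝ)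

/-- For every `c < 1/16` there is `L₀` such that every set `E` of at least `L₀` indices has at least
`exp (c (log |E|) ^ 2)` subsets which are exact patterns. -/
theorem result (c : ℝ) (hc : c < 1 / 16) : ∃ L₀ : ℕ, ∀ E : Finset ℕ, L₀ ≤ E.card →
    Real.exp (c * Real.log E.card ^ 2) ≤ (Set.ncard {P : Finset ℕ | P ⊆ E ∧ IsExactPattern P} : ℝ) := by
  obtain ⟨L₀, hL₀⟩ := Pool.Agent.Q51.EX.seq_complexity c hc
  refine ⟨L₀, fun E hE => (hL₀ _ Pool.Agent.Q51.EX.seq_bit E hE).trans ?_⟩
  rw [Nat.cast_le]
  refine Set.ncard_le_ncard ?_ ((E.powerset.finite_toSet).subset fun P hP => by simpa using hP.1)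
  rintro P ⟨hP, h⟩
  refine ⟨hP, fun W η hη => ?_⟩
  refine Pool.Agent.Q51.CP.often_shift (P := Pool.Agent.Q51.EX.Ex Pool.Agent.Q51.EX.bit P W)
    (Q := fun n => ∀ i ≤ W, ((b n i).Prime ↔ i ∈ P)) 1 ?_ (h W) η hη
  intro n hn i hi
  have := hn i hi
  rwa [Pool.Agent.Q51.EX.bit_val] at this

end Pool.Agent.Results.MP_c183ae_nt.PatternComplexity
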